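import Pool.Agent.H6.BC.Main

set_option autoImplicit false

namespace Pool.Agent.Results.MP_fb48ba_lc.RegularisedRate

open Filter Topology Pool.Agent.H6.BC

/-- Let `A(n,d) = maxCode n d` and let `M(n,d,k) = maxTuples n d k` be the independence number of the `k`-th
strong power of the graph on `{0,1}^n` whose edges are the pairs of distinct words at distance `< d`, so that
`logCap n d` is the binary logarithm of its Shannon capacity.
(1) For `0 < δ < 1/2` the limit `C(δ)` of `logCap n ⌊δn⌋ / n` exists and is the infimum of this sequence, and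
the upper asymptotic rate of `A(n,⌊δn⌋)` is at most `C(δ)`.
(2) If the limit in the question fails at `δ`, then for some `ε > 0` and infinitely many `n` the Shannon
capacity exceeds `A(n,⌊δn⌋)` by a factor `2^(εn)`, witnessed at a finite power `k + 1`.
(3) The set of `δ` at which the limit fails is open.
(4) The limit exists for all `δ` in `(0,1/2)` iff for all integers `0 < 2p < q` the limit of
`log₂ A(qk,pk) / (qk)` over `k` exists. -/
theorem result :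
    (∀ δ : ℝ, 0 < δ → δ < 1 / 2 → ∃ C : ℝ,
      Tendsto (fun n : ℕ => logCap n ⌊δ * (n : ℝ)⌋₊ / n) atTop (𝓝 C) ∧
      (∀ n : ℕ, 0 < n → C ≤ logCap n ⌊δ * (n : ℝ)⌋₊ / n) ∧
      ∀ ε : ℝ, 0 < ε → ∀ᶠ n : ℕ in atTop, Real.logb 2 (maxCode n ⌊δ * (n : ℝ)⌋₊) / n < C + ε) ∧
    (∀ δ : ℝ, 0 < δ → δ < 1 / 2 → ¬ RateExists δ →
      ∃ ε : ℝ, 0 < ε ∧ ∃ᶠ n : ℕ in atTop, ∃ k : ℕ,
        ((2 : ℝ) ^ (ε * (n : ℝ)) * (maxCode n ⌊δ * (n : ℝ)⌋₊ : ℝ)) ^ (k + 1) ≤
          (maxTuples n ⌊δ * (n : ℝ)⌋₊ (k + 1) : ℝ)) ∧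
    (∀ δ : ℝ, 0 < δ → δ < 1 / 2 → ¬ RateExists δ →
      ∃ η : ℝ, 0 < η ∧ ∀ δ' : ℝ, |δ' - δ| < η → ¬ RateExists δ') ∧
    ((∀ δ : ℝ, 0 < δ → δ < 1 / 2 → RateExists δ) ↔
      ∀ p q : ℕ, 0 < p → 2 * p < q →
        ∃ L : ℝ, Tendsto (fun k : ℕ => Real.logb 2 (maxCode (q * k) (p * k)) / ((q : ℝ) * k))
          atTop (𝓝 L)) :=
  ⟨fun δ hδ _ => cap_limit δ hδ.le, fun _ hδ _ h => gap_of_failure hδ h,
    fun _ hδ _ h => open_failure hδ h, all_iff_rational⟩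

end Pool.Agent.Results.MP_fb48ba_lc.RegularisedRate
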